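import Pool.Agent.ZGO.StmtsB

/-! # ZGO: the symbol of degree one exists (helper38) -/

set_option autoImplicit false

namespace Pool.Agent.ZGO.H38

variable {P : Type} [Group P] {p : ℕ} {φ : P →* P} {X : Type} [AddCommGroup X]
  {τ : X →+ X} {ρ : P →* AddMonoid.End X} {F : ℕ → AddSubgroup X} {M : ℕ}

theorem mem (h : Cyc p φ τ ρ F M) (g : P) (z : Wz τ F M) (i : ℕ) :
    ρ g ((z : ℕ → X) (i + 1)) - (z : ℕ → X) (i + 1) ∈ F (i + 1) ∧
    τ (ρ g ((z : ℕ → X) (i + M + 1)) - (z : ℕ → X) (i + M + 1)) -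
      (ρ g ((z : ℕ → X) (i + 1)) - (z : ℕ → X) (i + 1)) ∈ F i := by
  have hz := z.2
  refine ⟨h.act g (i + 1) _ (hz (i + 1)).1, ?_⟩
  set y : X := (z : ℕ → X) (i + M + 1) with hy
  set x : X := (z : ℕ → X) (i + 1) with hx
  have h1 : y ∈ F (i + M + 2) := (hz (i + M + 1)).1
  have h2 : τ (ρ (φ g) y - ρ g y) ∈ F i := (h.sht i _).1 (h.per g (i + M) y h1)
  have h3 : τ y - x ∈ F (i + 1) := by
    have := (hz (i + 1)).2
    have e : i + 1 + M = i + M + 1 := by omega
    rw [e] at this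
    exact this
  have h4 := h.act g i _ h3
  have e1 : τ (ρ g y - y) - (ρ g x - x) =
      (ρ g (τ y - x) - (τ y - x)) - τ (ρ (φ g) y - ρ g y) := by
    simp only [map_sub, h.eqv]
    abel
  rw [e1]
  exact (F i).sub_mem h4 h2

/-- the operator `ρ g - 1` on sequences, shifted by one -/
def D (h : Cyc p φ τ ρ F M) (g : P) : Wz τ F M →+ Wz τ F M where
  toFun z := ⟨fun i => ρ g ((z : ℕ → X) (i + 1)) - (z : ℕ → X) (i + 1), fun i => mem h g z i⟩
  map_zero' := by
    apply Subtype.ext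
    funext i
    simp
  map_add' a b := by
    apply Subtype.ext
    funext i
    simp only [AddSubgroup.coe_add, Pi.add_apply, map_add]
    abel

theorem exn : ExnStmt := by
  intro P _ p φ X _ τ ρ F M h g
  have hD : W0 τ F M ≤ (W0 τ F M).comap (D h g) := fun z hz i =>
    h.act g i _ (hz (i + 1))
  refine ⟨QuotientAddGroup.map (W0 τ F M) (W0 τ F M) (D h g) hD, le_rfl,
    fun i x hx => h.act g i x hx, fun z => ⟨D h g z, rfl, fun i => ?_⟩⟩
  have e : ρ g ((z : ℕ → X) (i + 1)) - (z : ℕ → X) (i + 1) - (D h g z : ℕ → X) i = 0 := sub_self _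
  rw [e]
  exact (F i).zero_mem

end Pool.Agent.ZGO.H38
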